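import Pool.Agent.J6H99.NX.Stm2

/-!
# The first success in the order of the levels
-/

set_option autoImplicit false

open MeasureTheory ProbabilityTheory Filter Topology
open scoped ENNReal

namespace Pool.Agent.J6H48.NX

open Pool.Agent.J6H99.NX

theorem first : FirstT := by
  classical
  intro e c I _ ℓ S B h1 h2
  set f : I → ℝ ×ₗ Fin (Fintype.card I) := fun i => toLex (ℓ i, Fintype.equivFin I i) with hf
  have hinj : Function.Injective f := by
    intro i j h
    have h' := congrArg (fun t => (ofLex t).2) h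
    exact (Fintype.equivFin I).injective h'
  have hle : ∀ i j, f j < f i → ℓ j ≤ ℓ i := by
    intro i j h
    rw [hf, Prod.Lex.toLex_lt_toLex] at h
    rcases h with h | h
    · exact h.le
    · exact h.1.le
  have key : ∀ (A : Set (Sym2 (V e))) (i : I), MeasurableSet[MS A] (S i) →
      (∀ j, f j < f i → MeasurableSet[MS A] (S j)) →
      MeasurableSet[MS A] (S i \ ⋃ j, ⋃ (_ : f j < f i), S j) := by
    intro A i hi hj
    refine @MeasurableSet.diff _ (MS A) _ _ hi ?_
    refine @MeasurableSet.iUnion _ _ (MS A) _ _ fun j => ?_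
    exact @MeasurableSet.iUnion _ _ (MS A) _ _ fun h => hj j h
  refine ⟨fun i => S i \ ⋃ j, ⋃ (_ : f j < f i), S j, fun i => Set.sdiff_subset, fun i => ?_,
    fun i => ?_, fun i j hij => ?_, ?_⟩
  · refine key _ i (h1 i) fun j hj => ?_
    exact MS_mono (Low_mono c (hle i j hj)) _ (h1 j)
  · exact key _ i (h2 i) fun j _ => h2 j
  · rw [Set.disjoint_left]
    rintro ω ⟨ha, hb⟩ ⟨ha', hb'⟩
    rcases lt_or_gt_of_ne (hinj.ne hij) with h | h
    · exact hb' (Set.mem_iUnion₂.2 ⟨i, h, ha⟩)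
    · exact hb (Set.mem_iUnion₂.2 ⟨j, h, ha'⟩)
  · refine Set.Subset.antisymm (Set.iUnion_mono fun i => Set.sdiff_subset) ?_
    intro ω hω
    obtain ⟨i0, hi0⟩ := Set.mem_iUnion.1 hω
    obtain ⟨i, hi, hmin⟩ := Finset.exists_min_image (Finset.univ.filter fun i => ω ∈ S i) f
      ⟨i0, Finset.mem_filter.2 ⟨Finset.mem_univ _, hi0⟩⟩
    refine Set.mem_iUnion.2 ⟨i, (Finset.mem_filter.1 hi).2, ?_⟩
    intro h
    obtain ⟨j, hj, hjS⟩ := Set.mem_iUnion₂.1 h
    exact absurd (hmin j (Finset.mem_filter.2 ⟨Finset.mem_univ _, hjS⟩)) (not_le.2 hj)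

end Pool.Agent.J6H48.NX
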