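import Pool.Agent.H4R2.AE.Conc

/-!
# The Efron-Stein inequality with positive parts, the second sample integrated

Variant of `Pool/Agent/J6H42/NC/Efron.lean` (helper42): the bound `D` is needed only after
integration over the independent copy.
-/

set_option autoImplicit false

open MeasureTheory ProbabilityTheory Filter Topology
open scoped ENNReal

namespace Pool.Agent.J6H48.NX

open Pool.Agent.H4R2.AE.Conc in
open Classical in
/-- the Efron-Stein inequality with positive parts -/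
theorem efron_fib {ι : Type} [Fintype ι] (μ : Measure ℝ) [IsProbabilityMeasure μ]
    (G : (ι → ℝ) → ℝ) (hG : Measurable G) (B : ℝ) (hB : ∀ ω, |G ω| ≤ B) (D : (ι → ℝ) → ℝ)
    (hDi : Integrable D (Measure.pi fun _ : ι => μ))
    (hD : ∀ ω : ι → ℝ, ∫ τ, ∑ j, (max 0 (G (Function.update ω j (τ j)) - G ω)) ^ 2
      ∂(Measure.pi fun _ : ι => μ) ≤ D ω) :
    ∫ ω, G ω ^ 2 ∂(Measure.pi fun _ : ι => μ) - (∫ ω, G ω ∂(Measure.pi fun _ : ι => μ)) ^ 2 ≤
      ∫ ω, D ω ∂(Measure.pi fun _ : ι => μ) := by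
  have h0 := efron (μ := μ) G hG B hB
  refine h0.trans ?_
  have gm : ∀ S : Finset ι, Measurable fun θ => G (sel S θ) := fun S => hG.comp (meas_sel S)
  have pm : ∀ S T : Finset ι, Measurable fun θ => (max 0 (G (sel S θ) - G (sel T θ))) ^ 2 :=
    fun S T => (measurable_const.max ((gm S).sub (gm T))).pow_const 2
  have bdd : ∀ a b : ℝ, |a| ≤ B → |b| ≤ B → |(max 0 (a - b)) ^ 2| ≤ (2 * B) ^ 2 := by
    intro a b ha hb
    rw [abs_of_nonneg (sq_nonneg _)]
    refine pow_le_pow_left₀ (le_max_left _ _) ?_ 2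
    have h1 := abs_le.1 ha
    have h2 := abs_le.1 hb
    have h3 := (abs_nonneg _).trans hb
    exact max_le (by linarith) (by linarith)
  have ip : ∀ S T : Finset ι, Integrable (fun θ => (max 0 (G (sel S θ) - G (sel T θ))) ^ 2)
      (QQ ι μ) := fun S T => int_bd (pm S T) (C := (2 * B) ^ 2) fun θ => bdd _ _ (hB _) (hB _)
  have e1 : ∀ j : ι, Inf2 μ G j =
      2 * ∫ θ, (max 0 (G (sel {j} θ) - G (sel ∅ θ))) ^ 2 ∂(QQ ι μ) := by
    intro j
    have hsym : ∫ θ, (max 0 (G (sel ∅ θ) - G (sel {j} θ))) ^ 2 ∂(QQ ι μ) =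
        ∫ θ, (max 0 (G (sel {j} θ) - G (sel ∅ θ))) ^ 2 ∂(QQ ι μ) := by
      rw [← int_mp (mp_sw μ {j}) (pm ∅ {j})]
      refine integral_congr_ae (Eventually.of_forall fun θ => ?_)
      have h1 : sel {j} (sw {j} θ) = sel ∅ θ := by
        funext i; by_cases hi : i = j <;> simp [sel, sw, hi]
      simp only [sel_empty_sw, h1]
    have hsplit : Inf2 μ G j = ∫ θ, (max 0 (G (sel ∅ θ) - G (sel {j} θ))) ^ 2 ∂(QQ ι μ) +
        ∫ θ, (max 0 (G (sel {j} θ) - G (sel ∅ θ))) ^ 2 ∂(QQ ι μ) := by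
      unfold Inf2
      rw [← integral_add (ip _ _) (ip _ _)]
      refine integral_congr_ae (Eventually.of_forall fun θ => ?_)
      simp only
      rcases le_total (G (sel ∅ θ)) (G (sel {j} θ)) with h | h
      · rw [max_eq_left (sub_nonpos.2 h), max_eq_right (sub_nonneg.2 h)]
        ring
      · rw [max_eq_right (sub_nonneg.2 h), max_eq_left (sub_nonpos.2 h)]
        ring
    rw [hsplit, hsym]
    ring
  have e2 : (1 / 2 : ℝ) * ∑ j, Inf2 μ G j =
      ∫ θ, ∑ j, (max 0 (G (sel {j} θ) - G (sel ∅ θ))) ^ 2 ∂(QQ ι μ) := by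
    rw [integral_finsetSum _ fun j _ => ip _ _, Finset.mul_sum]
    refine Finset.sum_congr rfl fun j _ => ?_
    rw [e1]
    ring
  rw [e2]
  -- Fubini
  set H : (ι → ℝ) × (ι → ℝ) → ℝ := fun z =>
    ∑ j, (max 0 (G (Function.update z.1 j (z.2 j)) - G z.1)) ^ 2 with hH
  have mup : ∀ j : ι, Measurable fun z : (ι → ℝ) × (ι → ℝ) => Function.update z.1 j (z.2 j) := by
    intro j
    refine measurable_pi_iff.2 fun i => ?_
    by_cases hi : i = j
    · subst hi
      simp only [Function.update_self]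
      exact (measurable_pi_apply i).comp measurable_snd
    · simp only [Function.update_of_ne hi]
      exact (measurable_pi_apply i).comp measurable_fst
  have hHm : Measurable H := Finset.measurable_sum _ fun j _ =>
    (measurable_const.max ((hG.comp (mup j)).sub (hG.comp measurable_fst))).pow_const 2
  have hHb : ∀ z, |H z| ≤ ∑ _j : ι, (2 * B) ^ 2 := fun z =>
    (Finset.abs_sum_le_sum_abs _ _).trans (Finset.sum_le_sum fun j _ => bdd _ _ (hB _) (hB _))
  have hHi : Integrable H ((PP ι μ).prod (PP ι μ)) := int_bd hHm hHb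
  have e3 : ∀ θ : ι → ℝ × ℝ, sel ∅ θ = fun i => (θ i).1 := fun θ => by funext i; simp [sel]
  have e4 : ∀ θ : ι → ℝ × ℝ, sel Finset.univ θ = fun i => (θ i).2 := fun θ => by
    funext i; simp [sel]
  have e5 : ∫ θ, ∑ j, (max 0 (G (sel {j} θ) - G (sel ∅ θ))) ^ 2 ∂(QQ ι μ) =
      ∫ z, H z ∂((PP ι μ).prod (PP ι μ)) := by
    rw [← int_mp (measurePreserving_arrowProdEquivProdArrow ℝ ℝ ι (fun _ => μ) (fun _ => μ)) hHm]
    refine integral_congr_ae (Eventually.of_forall fun θ => ?_)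
    simp only [hH]
    refine Finset.sum_congr rfl fun j _ => ?_
    rw [sel_single, e3, e4]
    rfl
  rw [e5, integral_prod _ hHi]
  exact integral_mono hHi.integral_prod_left hDi hD

end Pool.Agent.J6H48.NX
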