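import Pool.Agent.J6H48.NX.Cheap
import Pool.Agent.J6H48.NX.Efron

/-!
# First-passage percolation, positive weights with an exponential moment: the variance is at most
linear

After `Pool/Agent/J6H42/NC/Var.lean`, `VarB.lean` (helper42), for unbounded weights: the weights are
cut off from below at `1 / (k + 1)` and from above at `k + 1`, the Efron-Stein inequality is used
with the second sample integrated first, and the constants do not depend on `k`.
-/

set_option autoImplicit false
set_option linter.unusedVariables false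

open MeasureTheory ProbabilityTheory Filter Topology
open scoped ENNReal

namespace Pool.Agent.J6H48.NX

open Pool.Agent.J6H99.NX

variable {e : ℕ}

/-- finite balls -/
lemma ball_finite (L : ℤ) : {v : V e | n1 v ≤ L}.Finite := by
  refine (Set.Finite.pi' (fun _ : Fin (e + 2) => Set.finite_Icc (-L) L)).subset ?_
  intro v hv i
  have h1 := (coord_le_n1 v i).trans hv
  exact abs_le.1 h1

lemma edges_finite (L : ℤ) : (EIn {v : V e | n1 v ≤ L}).Finite := by
  refine (((ball_finite L).prod (ball_finite L)).image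
    (fun p : V e × V e => s(p.1, p.2))).subset ?_
  intro s hs
  induction s with
  | _ x y => exact ⟨(x, y), ⟨hs x (Sym2.mem_mk_left x y), hs y (Sym2.mem_mk_right x y)⟩, rfl⟩

lemma cf_congr (a : Wt) {ω ω' : Om e} {x y : V e} (p : (lat e).Walk x y)
    (h : ∀ s ∈ p.edges, ω s = ω' s) : cf a ω p = cf a ω' p := by
  unfold cf
  congr 1
  refine List.map_congr_left fun s hs => ?_
  rw [h s hs]

lemma cf_nil (a : Wt) (ω : Om e) (x : V e) :
    cf a ω (SimpleGraph.Walk.nil : (lat e).Walk x x) = 0 := by simp [cf]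

lemma cf_cons (a : Wt) (ω : Om e) {x y z : V e} (h : (lat e).Adj x y)
    (p : (lat e).Walk y z) :
    cf a ω (SimpleGraph.Walk.cons h p) = a.f (ω s(x, y)) + cf a ω p := by
  simp [cf]

lemma cf_ge (a : Wt) {η : ℝ} (h : ∀ t, η ≤ a.f t) (ω : Om e) {x y : V e}
    (p : (lat e).Walk x y) : η * p.length ≤ cf a ω p := by
  induction p with
  | nil => simp [cf_nil]
  | @cons x y z hh p ih =>
    rw [cf_cons, SimpleGraph.Walk.length_cons]
    have := h (ω s(x, y))
    push_cast
    linarith

lemma cf_le (a : Wt) {K : ℝ} (h : ∀ t, a.f t ≤ K) (ω : Om e) {x y : V e}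
    (p : (lat e).Walk x y) : cf a ω p ≤ K * p.length := by
  induction p with
  | nil => simp [cf_nil]
  | @cons x y z hh p ih =>
    rw [cf_cons, SimpleGraph.Walk.length_cons]
    have := h (ω s(x, y))
    push_cast
    linarith

lemma Tf_le_K (a : Wt) {K : ℝ} (h : ∀ t, a.f t ≤ K) (ω : Om e) (x : V e) :
    Tf a ω 0 x ≤ K * n1 x := by
  obtain ⟨p, hp⟩ := exists_walk_len (0 : V e) x
  rw [sub_zero] at hp
  have h1 : (p.length : ℝ) = (n1 x : ℝ) := by exact_mod_cast hp
  rw [← h1]
  exact (Tf_le a ω p).trans (cf_le a h ω p)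

/-- near optimal walks stay in the ball -/
lemma near_in_ball (a : Wt) {η K : ℝ} (hη : 0 < η) (hlo : ∀ t, η ≤ a.f t) (hhi : ∀ t, a.f t ≤ K)
    {ω : Om e} (x : V e) {L : ℤ} (hL : K * n1 x + η ≤ η * L) {δ : ℝ} (p : (lat e).Walk 0 x)
    (hp : cf a ω p < Tf a ω 0 x + min δ η) : Uses p (EIn {v : V e | n1 v ≤ L}) := by
  have h1 := cf_ge a hlo ω p
  have h2 := Tf_le_K a hhi ω x
  have h3 : η * (p.length : ℝ) < η * L :=
    calc η * (p.length : ℝ) ≤ cf a ω p := h1
      _ < Tf a ω 0 x + min δ η := hp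
      _ ≤ K * n1 x + η := add_le_add h2 (min_le_right _ _)
      _ ≤ η * L := hL
  have h4 : (p.length : ℤ) ≤ L := by
    have := lt_of_mul_lt_mul_left h3 hη.le
    exact_mod_cast this.le
  refine edges_EIn fun v hv => ?_
  have := n1_le_of_mem p hv
  rw [sub_zero] at this
  exact this.trans h4

/-- the passage time depends on finitely many weights -/
lemma Tf_congr (a : Wt) {η K : ℝ} (hη : 0 < η) (hlo : ∀ t, η ≤ a.f t) (hhi : ∀ t, a.f t ≤ K)
    {ω ω' : Om e} (x : V e) {L : ℤ} (hL : K * n1 x + η ≤ η * L)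
    (h : ∀ s ∈ EIn {v : V e | n1 v ≤ L}, ω s = ω' s) : Tf a ω' 0 x ≤ Tf a ω 0 x := by
  refine le_of_forall_pos_lt_add fun δ hδ => ?_
  obtain ⟨p, hp⟩ := exists_near_cf a ω 0 x (lt_min hδ hη)
  have h5 := near_in_ball a hη hlo hhi x hL p hp
  calc Tf a ω' 0 x ≤ cf a ω' p := Tf_le a ω' p
    _ = cf a ω p := (cf_congr a p fun s hs => h s (h5 s hs)).symm
    _ < Tf a ω 0 x + min δ η := hp
    _ ≤ Tf a ω 0 x + δ := by linarith [min_le_left δ η]

open Classical in
lemma cf_update (a : Wt) (ω : Om e) (s : Sym2 (V e)) (t : ℝ) {x y : V e}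
    (p : (lat e).Walk x y) (hp : p.edges.Nodup) :
    cf a (Function.update ω s t) p ≤ cf a ω p + (if s ∈ p.edges then 1 else 0) * a.f t := by
  unfold cf
  generalize p.edges = L at hp
  induction L with
  | nil => simp
  | cons r L ih =>
    rw [List.nodup_cons] at hp
    have ih := ih hp.2
    simp only [List.map_cons, List.sum_cons]
    by_cases hr : s = r
    · subst hr
      have e1 : (L.map fun r => a.f (Function.update ω s t r)) = L.map fun r => a.f (ω r) := by
        refine List.map_congr_left fun r hr => ?_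
        rw [Function.update_of_ne]
        rintro rfl
        exact hp.1 hr
      rw [e1, Function.update_self, if_pos (List.mem_cons_self ..)]
      have h2 := a.nn (ω s)
      linarith
    · rw [Function.update_of_ne (Ne.symm hr)]
      have e2 : (s ∈ r :: L) ↔ s ∈ L := by
        rw [List.mem_cons]
        exact or_iff_right hr
      simp only [e2]
      linarith

/-! ### Cheap paths in a finite set of edges -/

/-- some path of length `m` from `0` with edges in `S` has cost at most `c m` -/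
def CheapS (a : Wt) (c : ℝ) (S : Finset (Sym2 (V e))) (m : ℕ) : Set (Om e) :=
  {ω | ∃ y : V e, ∃ p : (lat e).Walk 0 y, p.IsPath ∧ p.length = m ∧ Uses p (S : Set (Sym2 (V e))) ∧
    cf a ω p ≤ c * m}

lemma CheapS_sub (a : Wt) (c : ℝ) (S : Finset (Sym2 (V e))) (m : ℕ) :
    CheapS a c S m ⊆ CheapP e a c m := fun _ ⟨y, p, h1, h2, _, h4⟩ => ⟨y, p, h1, h2, h4⟩

lemma CheapS_meas (a : Wt) (c : ℝ) (S : Finset (Sym2 (V e))) (m : ℕ) :
    MeasurableSet (CheapS a c S m) := by
  have h : CheapS a c S m = ⋃ y : V e, ⋃ p : (lat e).Walk 0 y,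
      {ω | (p.IsPath ∧ p.length = m ∧ Uses p (S : Set (Sym2 (V e)))) ∧ cf a ω p ≤ c * m} := by
    ext ω
    simp only [Set.mem_iUnion]
    constructor
    · rintro ⟨y, p, h1, h2, h3, h4⟩
      exact ⟨y, p, ⟨h1, h2, h3⟩, h4⟩
    · rintro ⟨y, p, ⟨h1, h2, h3⟩, h4⟩
      exact ⟨y, p, h1, h2, h3, h4⟩
  rw [h]
  refine MeasurableSet.iUnion fun y => MeasurableSet.iUnion fun p => ?_
  by_cases hp : p.IsPath ∧ p.length = m ∧ Uses p (S : Set (Sym2 (V e)))
  · have : {ω : Om e | (p.IsPath ∧ p.length = m ∧ Uses p (S : Set (Sym2 (V e)))) ∧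
        cf a ω p ≤ c * m} = (fun ω : Om e => cf a ω p) ⁻¹' Set.Iic (c * m) := by
      ext ω; simp [hp]
    rw [this]
    exact measurable_cf a p measurableSet_Iic
  · have : {ω : Om e | (p.IsPath ∧ p.length = m ∧ Uses p (S : Set (Sym2 (V e)))) ∧
        cf a ω p ≤ c * m} = ∅ := by
      ext ω; simp [hp]
    rw [this]
    exact MeasurableSet.empty

lemma CheapS_congr (a : Wt) (c : ℝ) (S : Finset (Sym2 (V e))) (m : ℕ) {ω ω' : Om e}
    (h : ∀ s ∈ S, ω s = ω' s) : ω ∈ CheapS a c S m ↔ ω' ∈ CheapS a c S m := by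
  constructor
  · rintro ⟨y, p, h1, h2, h3, h4⟩
    exact ⟨y, p, h1, h2, h3, by rwa [← cf_congr a p fun s hs => h s (h3 s hs)]⟩
  · rintro ⟨y, p, h1, h2, h3, h4⟩
    exact ⟨y, p, h1, h2, h3, by rwa [cf_congr a p fun s hs => h s (h3 s hs)]⟩

/-- a bound for the lengths of the cheap paths in `S` -/
noncomputable def NN (a : Wt) (c : ℝ) (S : Finset (Sym2 (V e))) (ω : Om e) : ℝ :=
  ∑ m ∈ Finset.range (S.card + 1), (m : ℝ) * (CheapS a c S m).indicator (fun _ => (1 : ℝ)) ω

lemma NN_meas (a : Wt) (c : ℝ) (S : Finset (Sym2 (V e))) : Measurable (NN a c S) :=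
  Finset.measurable_sum _ fun m _ =>
    (measurable_const.indicator (CheapS_meas a c S m)).const_mul _

lemma NN_nonneg (a : Wt) (c : ℝ) (S : Finset (Sym2 (V e))) (ω : Om e) : 0 ≤ NN a c S ω :=
  Finset.sum_nonneg fun m _ => mul_nonneg (Nat.cast_nonneg _)
    (Set.indicator_nonneg (fun _ _ => zero_le_one) _)

lemma NN_bd (a : Wt) (c : ℝ) (S : Finset (Sym2 (V e))) (ω : Om e) :
    NN a c S ω ≤ ∑ m ∈ Finset.range (S.card + 1), (m : ℝ) := by
  refine Finset.sum_le_sum fun m _ => ?_
  have h : (CheapS a c S m).indicator (fun _ => (1 : ℝ)) ω ≤ 1 :=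
    Set.indicator_le_self' (fun _ _ => zero_le_one) _
  calc (m : ℝ) * (CheapS a c S m).indicator (fun _ => (1 : ℝ)) ω ≤ m * 1 :=
        mul_le_mul_of_nonneg_left h (Nat.cast_nonneg _)
    _ = m := mul_one _

lemma NN_congr (a : Wt) (c : ℝ) (S : Finset (Sym2 (V e))) {ω ω' : Om e}
    (h : ∀ s ∈ S, ω s = ω' s) : NN a c S ω = NN a c S ω' := by
  classical
  refine Finset.sum_congr rfl fun m _ => ?_
  congr 1
  simp only [Set.indicator_apply]
  rw [if_congr (CheapS_congr a c S m h) rfl rfl]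

lemma le_NN (a : Wt) (c : ℝ) (S : Finset (Sym2 (V e))) {ω : Om e} {m : ℕ}
    (h : ω ∈ CheapS a c S m) (hm : m ≤ S.card) : (m : ℝ) ≤ NN a c S ω := by
  have h1 : (m : ℝ) * (CheapS a c S m).indicator (fun _ => (1 : ℝ)) ω ≤ NN a c S ω := by
    unfold NN
    exact Finset.single_le_sum (f := fun m : ℕ =>
      (m : ℝ) * (CheapS a c S m).indicator (fun _ => (1 : ℝ)) ω)
      (fun m _ => mul_nonneg (Nat.cast_nonneg _) (Set.indicator_nonneg (fun _ _ => zero_le_one) _))
      (Finset.mem_range.2 (Nat.lt_succ_of_le hm))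
  rwa [Set.indicator_of_mem h, mul_one] at h1

lemma sum_half (n : ℕ) : ∑ m ∈ Finset.range n, (m : ℝ) * (1 / 2) ^ m =
    2 - 2 * (n + 1) * (1 / 2) ^ n := by
  induction n with
  | zero => simp
  | succ n ih => rw [Finset.sum_range_succ, ih, pow_succ]; push_cast; ring

lemma NN_int (a : Wt) (F : Measure ℝ) [IsProbabilityMeasure F] (c : ℝ)
    (hP : ∀ m : ℕ, PM e F (CheapP e a c m) ≤ ENNReal.ofReal ((1 / 2) ^ m))
    (S : Finset (Sym2 (V e))) : ∫ ω, NN a c S ω ∂(PM e F) ≤ 2 := by
  unfold NN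
  rw [integral_finsetSum _ fun m _ =>
    ((integrable_const (1 : ℝ)).indicator (CheapS_meas a c S m)).const_mul _]
  have h : ∀ m ∈ Finset.range (S.card + 1),
      ∫ ω, (m : ℝ) * (CheapS a c S m).indicator (fun _ => (1 : ℝ)) ω ∂(PM e F) ≤
        m * (1 / 2) ^ m := by
    intro m _
    rw [integral_const_mul, integral_indicator_const _ (CheapS_meas a c S m), smul_eq_mul, mul_one]
    refine mul_le_mul_of_nonneg_left ?_ (Nat.cast_nonneg _)
    have h1 := (measure_mono (CheapS_sub a c S m)).trans (hP m)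
    exact ENNReal.toReal_le_of_le_ofReal (by positivity) h1
  refine (Finset.sum_le_sum h).trans ?_
  rw [sum_half]
  have : 0 ≤ 2 * (((S.card + 1 : ℕ) : ℝ) + 1) * (1 / 2 : ℝ) ^ (S.card + 1) := by positivity
  linarith

/-! ### The Efron-Stein bound -/

/-- the weights of `a` are between `η` and `K` and at least those of `a0` -/
structure Dm (a0 a : Wt) (η K : ℝ) : Prop where
  hη : 0 < η
  lo : ∀ t, η ≤ a.f t
  hi : ∀ t, a.f t ≤ K
  dom : ∀ t, a0.f t ≤ a.f t

lemma Dm.hK {a0 a : Wt} {η K : ℝ} (h : Dm a0 a η K) : 0 < K :=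
  lt_of_lt_of_le h.hη ((h.lo 0).trans (h.hi 0))

open Classical in
/-- extension by zero of a configuration on `S` -/
noncomputable def ext (S : Finset (Sym2 (V e))) (y : S → ℝ) : Om e :=
  fun s => if h : s ∈ S then y ⟨s, h⟩ else 0

lemma measurable_ext (S : Finset (Sym2 (V e))) : Measurable (ext S) := by
  refine measurable_pi_iff.2 fun s => ?_
  unfold ext
  split_ifs with h
  · exact measurable_pi_apply _
  · exact measurable_const

open Classical in
lemma ext_update (S : Finset (Sym2 (V e))) (y : S → ℝ) (j : S) (t : ℝ) :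
    ext S (Function.update y j t) = Function.update (ext S y) j t := by
  funext s
  by_cases hs : s = j
  · subst hs
    simp [ext]
  · rw [Function.update_of_ne hs]
    unfold ext
    split_ifs with h
    · rw [Function.update_of_ne]
      intro h'
      exact hs (congrArg Subtype.val h')
    · rfl

lemma ext_restrict (S : Finset (Sym2 (V e))) (ω : Om e) {s : Sym2 (V e)} (hs : s ∈ S) :
    ω s = ext S (S.restrict ω) s := by
  unfold ext
  rw [dif_pos hs]
  rfl

lemma int_coord (a : Wt) {K : ℝ} (hK : ∀ t, a.f t ≤ K) (F : Measure ℝ) [IsProbabilityMeasure F]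
    (S : Finset (Sym2 (V e))) (j : S) :
    Integrable (fun z : S → ℝ => a.f (z j) ^ 2) (Measure.pi fun _ : S => F) ∧
      ∫ z : S → ℝ, a.f (z j) ^ 2 ∂(Measure.pi fun _ : S => F) = ∫ t, a.f t ^ 2 ∂F := by
  have hm : Measurable fun t : ℝ => a.f t ^ 2 := a.m.pow_const 2
  have h := measurePreserving_eval (fun _ : S => F) j
  constructor
  · refine Integrable.of_bound (hm.comp (measurable_pi_apply j)).aestronglyMeasurable (K ^ 2)
      (Eventually.of_forall fun z => ?_)
    rw [Real.norm_eq_abs, abs_of_nonneg (sq_nonneg _)]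
    exact pow_le_pow_left₀ (a.nn _) (hK _) 2
  · have h1 := integral_map h.measurable.aemeasurable (f := fun t : ℝ => a.f t ^ 2)
      (by rw [h.map_eq]; exact hm.aestronglyMeasurable)
    rw [h.map_eq] at h1
    exact h1.symm

open Classical in
/-- the mean over the second sample of the sum of the squares of the positive increments -/
lemma fiber {a0 a : Wt} {η K : ℝ} (hq : Dm a0 a η K) {c : ℝ} (hc : 0 < c) (F : Measure ℝ)
    [IsProbabilityMeasure F] (x : V e) {L : ℤ}
    (hL : K * n1 x + η ≤ η * L) (S : Finset (Sym2 (V e)))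
    (hS : ∀ s, s ∈ EIn {v : V e | n1 v ≤ L} → s ∈ S) (y : S → ℝ) :
    ∫ z : S → ℝ, ∑ j : S, (max 0 (Tf a (Function.update (ext S y) (j : Sym2 (V e)) (z j)) 0 x -
      Tf a (ext S y) 0 x)) ^ 2 ∂(Measure.pi fun _ : S => F) ≤
      (∫ t, a.f t ^ 2 ∂F) * (NN a0 c S (ext S y) + Tf a (ext S y) 0 x / c) := by
  have hη := hq.hη
  have hK := hq.hK
  set ω : Om e := ext S y with hω
  set m2 : ℝ := ∫ t, a.f t ^ 2 ∂F with hm2
  have hm20 : 0 ≤ m2 := integral_nonneg fun t => sq_nonneg _
  have key : ∀ δ : ℝ, 0 < δ →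
      ∫ z : S → ℝ, ∑ j : S, (max 0 (Tf a (Function.update ω (j : Sym2 (V e)) (z j)) 0 x -
        Tf a ω 0 x)) ^ 2 ∂(Measure.pi fun _ : S => F) ≤
        S.card * (δ ^ 2 + 2 * δ * K) + m2 * (NN a0 c S ω + (Tf a ω 0 x + δ) / c) := by
    intro δ hδ
    obtain ⟨p, hpath, hc'⟩ := exists_near_path a ω 0 x (lt_min hδ hη)
    have hp : p.edges.Nodup := hpath.isTrail.edges_nodup
    have huse := near_in_ball a hη hq.lo hq.hi x hL p hc'
    have huS : Uses p (S : Set (Sym2 (V e))) := fun s hs => hS s (huse s hs)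
    have hcδ : cf a ω p < Tf a ω 0 x + δ := lt_of_lt_of_le hc' (by linarith [min_le_left δ η])
    set ι : S → ℝ := fun j => if (j : Sym2 (V e)) ∈ p.edges then 1 else 0 with hι
    have h1 : ∀ (z : S → ℝ) (j : S), (max 0 (Tf a (Function.update ω (j : Sym2 (V e)) (z j)) 0 x -
        Tf a ω 0 x)) ^ 2 ≤ (δ ^ 2 + 2 * δ * K) + ι j * a.f (z j) ^ 2 := by
      intro z j
      have hf0 := a.nn (z j)
      have hfK := hq.hi (z j)
      have h2 : max 0 (Tf a (Function.update ω (j : Sym2 (V e)) (z j)) 0 x - Tf a ω 0 x) ≤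
          δ + ι j * a.f (z j) := by
        refine max_le ?_ ?_
        · simp only [hι]
          split_ifs <;> simp <;> linarith
        · have h3 := (Tf_le a (Function.update ω (j : Sym2 (V e)) (z j)) p).trans
            (cf_update a ω (j : Sym2 (V e)) (z j) p hp)
          simp only [hι]
          linarith
      have h4 := pow_le_pow_left₀ (le_max_left 0 _) h2 2
      refine h4.trans ?_
      simp only [hι]
      have h5 : δ * a.f (z j) ≤ δ * K := mul_le_mul_of_nonneg_left hfK hδ.le
      split_ifs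
      · nlinarith
      · nlinarith [mul_pos hδ hK]
    have hi : ∀ j : S, Integrable (fun z : S → ℝ => (δ ^ 2 + 2 * δ * K) + ι j * a.f (z j) ^ 2)
        (Measure.pi fun _ : S => F) := fun j =>
      (integrable_const _).add ((int_coord a hq.hi F S j).1.const_mul _)
    have h2 : ∫ z : S → ℝ, ∑ j : S, (max 0 (Tf a (Function.update ω (j : Sym2 (V e)) (z j)) 0 x -
        Tf a ω 0 x)) ^ 2 ∂(Measure.pi fun _ : S => F) ≤
        ∫ z : S → ℝ, ∑ j : S, ((δ ^ 2 + 2 * δ * K) + ι j * a.f (z j) ^ 2)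
          ∂(Measure.pi fun _ : S => F) := by
      refine integral_mono_of_nonneg
        (Eventually.of_forall fun z => Finset.sum_nonneg fun j _ => sq_nonneg _)
        (integrable_finsetSum _ fun j _ => hi j)
        (Eventually.of_forall fun z => Finset.sum_le_sum fun j _ => h1 z j)
    refine h2.trans ?_
    rw [integral_finsetSum _ fun j _ => hi j]
    have h3 : ∀ j : S, ∫ z : S → ℝ, ((δ ^ 2 + 2 * δ * K) + ι j * a.f (z j) ^ 2)
        ∂(Measure.pi fun _ : S => F) = (δ ^ 2 + 2 * δ * K) + m2 * ι j := by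
      intro j
      rw [integral_add (integrable_const _) ((int_coord a hq.hi F S j).1.const_mul _),
        integral_const_mul, (int_coord a hq.hi F S j).2]
      simp only [integral_const, probReal_univ, one_smul]
      ring
    simp only [h3]
    rw [Finset.sum_add_distrib, Finset.sum_const, nsmul_eq_mul, ← Finset.mul_sum,
      Finset.card_univ, Fintype.card_coe]
    refine add_le_add le_rfl (mul_le_mul_of_nonneg_left ?_ hm20)
    have h5 : ∑ j : S, ι j ≤ p.length := by
      have h50 : ∑ j : S, ι j = ∑ s ∈ S, (if s ∈ p.edges then (1 : ℝ) else 0) := by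
        rw [← Finset.sum_coe_sort S]
      rw [h50, ← Finset.sum_filter, Finset.sum_const, nsmul_eq_mul, mul_one]
      have h6 : (S.filter fun s => s ∈ p.edges) ⊆ p.edges.toFinset := by
        intro s hs
        rw [Finset.mem_filter] at hs
        exact List.mem_toFinset.2 hs.2
      have h7 := (Finset.card_le_card h6).trans (List.toFinset_card_le p.edges)
      rw [SimpleGraph.Walk.length_edges] at h7
      exact_mod_cast h7
    refine h5.trans ?_
    have h8 : p.length ≤ S.card := by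
      rw [← SimpleGraph.Walk.length_edges, ← List.toFinset_card_of_nodup hp]
      exact Finset.card_le_card fun s hs => huS s (List.mem_toFinset.1 hs)
    have h0 := Tf_nonneg a ω 0 x
    rcases le_or_gt (cf a0 ω p) (c * p.length) with hcase | hcase
    · have := le_NN a0 c S (ω := ω) (m := p.length) ⟨x, p, hpath, rfl, huS, hcase⟩ h8
      have h10 : 0 ≤ (Tf a ω 0 x + δ) / c := by positivity
      linarith
    · have h10 := cf_mono hq.dom ω p
      have h11 : (p.length : ℝ) ≤ (Tf a ω 0 x + δ) / c := by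
        rw [le_div_iff₀ hc]
        linarith
      have := NN_nonneg a0 c S ω
      linarith
  have lim : Tendsto (fun δ : ℝ => S.card * (δ ^ 2 + 2 * δ * K) +
      m2 * (NN a0 c S ω + (Tf a ω 0 x + δ) / c)) (𝓝[>] 0)
      (𝓝 (S.card * (0 ^ 2 + 2 * 0 * K) + m2 * (NN a0 c S ω + (Tf a ω 0 x + 0) / c))) := by
    refine Tendsto.mono_left ?_ nhdsWithin_le_nhds
    refine Continuous.tendsto' ?_ _ _ rfl
    fun_prop
  have h := ge_of_tendsto lim (eventually_nhdsWithin_of_forall fun δ hδ => key δ hδ)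
  refine h.trans (le_of_eq ?_)
  ring

/-- the mean cost of a walk -/
lemma int_cf (a : Wt) {K : ℝ} (hK : ∀ t, a.f t ≤ K) (F : Measure ℝ) [IsProbabilityMeasure F]
    {x y : V e} (p : (lat e).Walk x y) :
    Integrable (fun ω : Om e => cf a ω p) (PM e F) ∧
      ∫ ω, cf a ω p ∂(PM e F) = p.length * ∫ t, a.f t ∂F := by
  have h : ∀ L : List (Sym2 (V e)), Integrable (fun ω : Om e => (L.map fun s => a.f (ω s)).sum)
      (PM e F) ∧ ∫ ω : Om e, (L.map fun s => a.f (ω s)).sum ∂(PM e F) =
        L.length * ∫ t, a.f t ∂F := by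
    intro L
    induction L with
    | nil => simp
    | cons s L ih =>
      simp only [List.map_cons, List.sum_cons, List.length_cons]
      have hi : Integrable (fun ω : Om e => a.f (ω s)) (PM e F) := by
        refine Integrable.of_bound (a.m.comp (measurable_pi_apply s)).aestronglyMeasurable K
          (Eventually.of_forall fun ω => ?_)
        rw [Real.norm_eq_abs, abs_of_nonneg (a.nn _)]
        exact hK _
      refine ⟨hi.add ih.1, ?_⟩
      rw [integral_add hi ih.1, ih.2, int_eval F s a.m]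
      push_cast
      ring
  have h1 := h p.edges
  rw [SimpleGraph.Walk.length_edges] at h1
  exact h1

open Classical in
/-- the variance bound for the cut off weights -/
theorem var_dom {a0 a : Wt} {η K : ℝ} (hq : Dm a0 a η K) (F : Measure ℝ) [IsProbabilityMeasure F]
    {c : ℝ} (hc : 0 < c) (hP : ∀ m : ℕ, PM e F (CheapP e a0 c m) ≤ ENNReal.ofReal ((1 / 2) ^ m))
    {M1 M2 : ℝ} (hM1 : ∫ t, a.f t ∂F ≤ M1) (hM2 : ∫ t, a.f t ^ 2 ∂F ≤ M2) (x : V e) :
    ∫ ω, Tf a ω 0 x ^ 2 ∂(PM e F) - (∫ ω, Tf a ω 0 x ∂(PM e F)) ^ 2 ≤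
      M2 * (2 + M1 * n1 x / c) := by
  have hK := hq.hK
  have hη := hq.hη
  -- the finite set of edges
  obtain ⟨L, hL⟩ : ∃ L : ℤ, K * n1 x + η ≤ η * L := by
    obtain ⟨n, hn⟩ := exists_nat_ge ((K * n1 x + η) / η)
    refine ⟨n, ?_⟩
    rw [div_le_iff₀ hη] at hn
    push_cast
    linarith
  set S : Finset (Sym2 (V e)) := (edges_finite (e := e) L).toFinset with hS
  have hSm : ∀ s, s ∈ EIn {v : V e | n1 v ≤ L} → s ∈ S := fun s hs =>
    (Set.Finite.mem_toFinset _).2 hs
  have hST : ∀ ω : Om e, Tf a ω 0 x = Tf a (ext S (S.restrict ω)) 0 x := by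
    intro ω
    have h1 : ∀ s ∈ EIn {v : V e | n1 v ≤ L}, ω s = ext S (S.restrict ω) s := by
      intro s hs
      exact ext_restrict S ω (hSm s hs)
    exact le_antisymm (Tf_congr a hη hq.lo hq.hi x hL fun s hs => (h1 s hs).symm)
      (Tf_congr a hη hq.lo hq.hi x hL h1)
  set G : (S → ℝ) → ℝ := fun y => Tf a (ext S y) 0 x with hG
  have hGm : Measurable G := (measurable_Tf a 0 x).comp (measurable_ext S)
  have hn0 : (0 : ℝ) ≤ n1 x := by exact_mod_cast n1_nonneg x
  have hTb : ∀ ω : Om e, |Tf a ω 0 x| ≤ K * n1 x := by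
    intro ω
    rw [abs_of_nonneg (Tf_nonneg a ω 0 x)]
    exact Tf_le_K a hq.hi ω x
  set m2 : ℝ := ∫ t, a.f t ^ 2 ∂F with hm2
  have hm20 : 0 ≤ m2 := integral_nonneg fun t => sq_nonneg _
  have hm10 : 0 ≤ ∫ t, a.f t ∂F := integral_nonneg fun t => a.nn t
  set D : (S → ℝ) → ℝ := fun y => m2 * (NN a0 c S (ext S y) + Tf a (ext S y) 0 x / c) with hD
  have hDm : Measurable D :=
    (((NN_meas a0 c S).comp (measurable_ext S)).add (hGm.div_const c)).const_mul _
  have i1 : ∫ ω, Tf a ω 0 x ∂(PM e F) = ∫ y, G y ∂(Measure.pi fun _ : S => F) := by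
    rw [← integral_restrict_infinitePi (μ := fun _ : Sym2 (V e) => F) (s := S)
      hGm.aestronglyMeasurable]
    exact integral_congr_ae (Eventually.of_forall hST)
  have i2 : ∫ ω, Tf a ω 0 x ^ 2 ∂(PM e F) = ∫ y, G y ^ 2 ∂(Measure.pi fun _ : S => F) := by
    rw [← integral_restrict_infinitePi (μ := fun _ : Sym2 (V e) => F) (s := S)
      (hGm.pow_const 2).aestronglyMeasurable]
    refine integral_congr_ae (Eventually.of_forall fun ω => ?_)
    simp only
    rw [hST ω]
  have i3 : ∫ y, D y ∂(Measure.pi fun _ : S => F) =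
      ∫ ω, m2 * (NN a0 c S ω + Tf a ω 0 x / c) ∂(PM e F) := by
    rw [← integral_restrict_infinitePi (μ := fun _ : Sym2 (V e) => F) (s := S)
      hDm.aestronglyMeasurable]
    refine integral_congr_ae (Eventually.of_forall fun ω => ?_)
    simp only [hD]
    rw [NN_congr a0 c S (ω := ω) (ω' := ext S (S.restrict ω)) fun s hs => ext_restrict S ω hs,
      ← hST ω]
  have i5 : ∫ ω, Tf a ω 0 x ∂(PM e F) ≤ M1 * n1 x := by
    obtain ⟨p, hp⟩ := exists_walk_len (0 : V e) x
    rw [sub_zero] at hp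
    have h1 : (p.length : ℝ) = (n1 x : ℝ) := by exact_mod_cast hp
    have hTi : Integrable (fun ω => Tf a ω 0 x) (PM e F) :=
      Integrable.of_bound (measurable_Tf a 0 x).aestronglyMeasurable (K * n1 x)
        (Eventually.of_forall fun ω => by rw [Real.norm_eq_abs]; exact hTb ω)
    have h2 := integral_mono hTi (int_cf a hq.hi F p).1 fun ω => Tf_le a ω p
    rw [(int_cf a hq.hi F p).2, h1] at h2
    refine h2.trans ?_
    rw [mul_comm]
    exact mul_le_mul_of_nonneg_right hM1 hn0
  have i4 : ∫ ω, m2 * (NN a0 c S ω + Tf a ω 0 x / c) ∂(PM e F) ≤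
      M2 * (2 + M1 * n1 x / c) := by
    rw [integral_const_mul]
    have hint : Integrable (NN a0 c S) (PM e F) := by
      refine Integrable.of_bound (NN_meas a0 c S).aestronglyMeasurable
        (∑ m ∈ Finset.range (S.card + 1), (m : ℝ)) (Eventually.of_forall fun ω => ?_)
      rw [Real.norm_eq_abs, abs_of_nonneg (NN_nonneg a0 c S ω)]
      exact NN_bd a0 c S ω
    have hTi : Integrable (fun ω => Tf a ω 0 x / c) (PM e F) :=
      (Integrable.of_bound (measurable_Tf a 0 x).aestronglyMeasurable (K * n1 x)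
        (Eventually.of_forall fun ω => by rw [Real.norm_eq_abs]; exact hTb ω)).div_const c
    rw [integral_add hint hTi, integral_div]
    have h1 := NN_int a0 F c hP S
    have h2 : (∫ ω, Tf a ω 0 x ∂(PM e F)) / c ≤ M1 * n1 x / c :=
      div_le_div_of_nonneg_right i5 hc.le
    have h3 : 0 ≤ M1 := hm10.trans hM1
    have h4 : 0 ≤ M1 * n1 x / c := by positivity
    calc m2 * (∫ ω, NN a0 c S ω ∂(PM e F) + (∫ ω, Tf a ω 0 x ∂(PM e F)) / c)
        ≤ m2 * (2 + M1 * n1 x / c) := mul_le_mul_of_nonneg_left (by linarith) hm20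
      _ ≤ M2 * (2 + M1 * n1 x / c) := mul_le_mul_of_nonneg_right hM2 (by linarith)
  rw [i1, i2]
  refine le_trans ?_ i4
  rw [← i3]
  refine efron_fib F G hGm (K * n1 x) (fun y => hTb _) D ?_ ?_
  · refine Integrable.of_bound hDm.aestronglyMeasurable
      (m2 * ((∑ m ∈ Finset.range (S.card + 1), (m : ℝ)) + K * n1 x / c))
      (Eventually.of_forall fun y => ?_)
    have h1 := NN_nonneg a0 c S (ext S y)
    have h2 := NN_bd a0 c S (ext S y)
    have h3 := Tf_nonneg a (ext S y) 0 x
    have h4 := Tf_le_K a hq.hi (ext S y) x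
    have h5 : 0 ≤ Tf a (ext S y) 0 x / c := by positivity
    have h6 : Tf a (ext S y) 0 x / c ≤ K * n1 x / c := div_le_div_of_nonneg_right h4 hc.le
    rw [hD]
    simp only
    rw [Real.norm_eq_abs, abs_of_nonneg (by positivity)]
    refine mul_le_mul_of_nonneg_left ?_ hm20
    linarith
  · intro y
    refine le_trans (le_of_eq ?_) (fiber hq hc F x hL S hSm y)
    refine integral_congr_ae (Eventually.of_forall fun z => ?_)
    refine Finset.sum_congr rfl fun j _ => ?_
    have h3 : ∀ inst : DecidableEq S, ext S (@Function.update _ _ inst y j (z j)) =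
        Function.update (ext S y) j (z j) := by
      intro inst
      have key : ∀ i1 i2 : DecidableEq S, @Function.update _ _ i1 y j (z j) =
          @Function.update _ _ i2 y j (z j) := by
        intro i1 i2
        rw [Subsingleton.elim i1 i2]
      exact (congrArg (ext S) (key _ _)).trans (ext_update S y j (z j))
    simp only [hG]
    rw [h3]

/-! ### The limit -/

/-- the weights are cut off from below at `1 / (k + 1)` and from above at `k + 1` -/
noncomputable def fk (q : Par) (k : ℕ) : Wt where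
  f t := max (1 / ((k : ℝ) + 1)) (min ((k : ℝ) + 1) (q.w t))
  m := measurable_const.max (measurable_const.min q.measurable_w)
  nn t := le_trans (by positivity) (le_max_left _ _)

/-- the weights are cut off from above at `1` -/
noncomputable def f0 (q : Par) : Wt where
  f t := min 1 (q.w t)
  m := measurable_const.min q.measurable_w
  nn t := le_min zero_le_one (q.w_nonneg t)

lemma one_div_le (k : ℕ) : 1 / ((k : ℝ) + 1) ≤ 1 := by
  rw [div_le_one (by positivity)]
  have : (0 : ℝ) ≤ k := Nat.cast_nonneg k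
  linarith

lemma dm_fk (q : Par) (k : ℕ) : Dm (f0 q) (fk q k) (1 / ((k : ℝ) + 1)) ((k : ℝ) + 1) where
  hη := by positivity
  lo t := le_max_left _ _
  hi t := by
    have h1 := one_div_le k
    have : (0 : ℝ) ≤ k := Nat.cast_nonneg k
    exact max_le (by linarith) (min_le_left _ _)
  dom t := by
    have : (0 : ℝ) ≤ k := Nat.cast_nonneg k
    exact (min_le_min_right _ (by linarith)).trans (le_max_right _ _)

lemma fk_le (q : Par) (k : ℕ) (t : ℝ) : (fk q k).f t ≤ q.w t + 1 / ((k : ℝ) + 1) := by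
  have h1 : (0 : ℝ) < 1 / ((k : ℝ) + 1) := by positivity
  have h2 := q.w_nonneg t
  exact max_le (by linarith) ((min_le_right _ _).trans (by linarith))

lemma cf_fk_le (q : Par) (k : ℕ) (ω : Om e) {x y : V e} (p : (lat e).Walk x y) :
    cf (fk q k) ω p ≤ cost q ω p + 1 / ((k : ℝ) + 1) * p.length := by
  induction p with
  | nil => simp [cost_nil, cf_nil]
  | @cons x y z hh p ih =>
    rw [cf_cons, cost_cons, SimpleGraph.Walk.length_cons]
    have h1 := fk_le q k (ω s(x, y))
    push_cast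
    linarith

lemma le_cf_fk (q : Par) (k : ℕ) (ω : Om e) {x y : V e} (p : (lat e).Walk x y) :
    min ((k : ℝ) + 1) (cost q ω p) ≤ cf (fk q k) ω p := by
  induction p with
  | nil => simp [cost_nil, cf_nil]
  | @cons x y z hh p ih =>
    rw [cf_cons, cost_cons]
    have h1 : min ((k : ℝ) + 1) (q.w (ω s(x, y))) ≤ (fk q k).f (ω s(x, y)) := le_max_right _ _
    have h2 := q.w_nonneg (ω s(x, y))
    have h3 := cost_nonneg q ω p
    have h4 := cf_nonneg (fk q k) ω p
    have h5 := (fk q k).nn (ω s(x, y))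
    rcases le_total ((k : ℝ) + 1) (q.w (ω s(x, y))) with h | h
    · rw [min_eq_left h] at h1
      exact (min_le_left _ _).trans (by linarith)
    · rw [min_eq_right h] at h1
      rcases le_total ((k : ℝ) + 1) (cost q ω p) with h' | h'
      · rw [min_eq_left h'] at ih
        exact (min_le_left _ _).trans (by linarith)
      · rw [min_eq_right h'] at ih
        exact (min_le_right _ _).trans (by linarith)

lemma T_fk (q : Par) (ω : Om e) (x y : V e) :
    Tendsto (fun k => Tf (fk q k) ω x y) atTop (𝓝 (T q ω x y)) := by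
  rw [Metric.tendsto_atTop]
  intro ε hε
  obtain ⟨p, hp⟩ := exists_near q ω x y (half_pos hε)
  have hlim : Tendsto (fun k : ℕ => 1 / ((k : ℝ) + 1) * p.length) atTop (𝓝 (0 * p.length)) := by
    refine Tendsto.mul_const _ ?_
    exact tendsto_const_nhds.div_atTop
      (tendsto_atTop_add_const_right _ _ tendsto_natCast_atTop_atTop)
  rw [zero_mul] at hlim
  obtain ⟨N, hN⟩ := eventually_atTop.1 (hlim.eventually (gt_mem_nhds (half_pos hε)))
  obtain ⟨N', hN'⟩ := exists_nat_ge (T q ω x y)
  refine ⟨max N N', fun k hk => ?_⟩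
  have hk1 : N ≤ k := (le_max_left _ _).trans hk
  have hk2 : N' ≤ k := (le_max_right _ _).trans hk
  have h1 : T q ω x y ≤ Tf (fk q k) ω x y := by
    refine le_ciInf fun p => ?_
    refine le_trans (le_min ?_ (T_le q ω p)) (le_cf_fk q k ω p)
    have : (N' : ℝ) ≤ k := by exact_mod_cast hk2
    linarith
  have h2 := (Tf_le (fk q k) ω p).trans (cf_fk_le q k ω p)
  have h3 := hN k hk1
  rw [Real.dist_eq, abs_of_nonneg (sub_nonneg.2 h1)]
  linarith

lemma mean_fk (q : Par) (F : Measure ℝ) [IsProbabilityMeasure F] [MB q F] (k : ℕ) :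
    ∫ t, (fk q k).f t ∂F ≤ q.b + 1 := by
  have h1 : Integrable (fun t => q.w t + 1) F := (MB.int_w).add (integrable_const _)
  have h2 : ∫ t, (fk q k).f t ∂F ≤ ∫ t, (q.w t + 1) ∂F :=
    integral_mono_of_nonneg (Eventually.of_forall fun t => (fk q k).nn t) h1
      (Eventually.of_forall fun t => (fk_le q k t).trans (by linarith [one_div_le k]))
  refine h2.trans ?_
  rw [integral_add MB.int_w (integrable_const _)]
  simp only [integral_const, probReal_univ, one_smul]
  have := MB.mean_le (q := q) (F := F)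
  linarith

lemma sq_fk (q : Par) (F : Measure ℝ) [IsProbabilityMeasure F] [MB q F] (k : ℕ) :
    ∫ t, (fk q k).f t ^ 2 ∂F ≤ (q.b + 1) ^ 2 := by
  have h0 : Integrable (fun t => q.w t ^ 2 + 2 * q.w t) F :=
    (MB.int_sq).add ((MB.int_w).const_mul 2)
  have h1 : Integrable (fun t => q.w t ^ 2 + 2 * q.w t + 1) F := h0.add (integrable_const _)
  have h2 : ∫ t, (fk q k).f t ^ 2 ∂F ≤ ∫ t, (q.w t ^ 2 + 2 * q.w t + 1) ∂F := by
    refine integral_mono_of_nonneg (Eventually.of_forall fun t => sq_nonneg _) h1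
      (Eventually.of_forall fun t => ?_)
    have h3 : (fk q k).f t ≤ q.w t + 1 := (fk_le q k t).trans (by linarith [one_div_le k])
    have h4 := pow_le_pow_left₀ ((fk q k).nn t) h3 2
    refine h4.trans (le_of_eq ?_)
    ring
  refine h2.trans ?_
  rw [integral_add h0 (integrable_const _), integral_add MB.int_sq ((MB.int_w).const_mul 2),
    integral_const_mul]
  simp only [integral_const, probReal_univ, one_smul]
  have h5 := MB.mean_le (q := q) (F := F)
  have h6 := MB.sq_le (q := q) (F := F)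
  nlinarith

/-- the variance bound -/
theorem varB (e : ℕ) (q : Par) (F : Measure ℝ) [IsProbabilityMeasure F] [MB q F]
    (h : F {t | q.w t ≤ 0} = 0) : VarB e q F := by
  have h' : F {t | (f0 q).f t ≤ 0} = 0 := by
    refine measure_mono_null ?_ h
    intro t ht
    have ht' : min 1 (q.w t) ≤ 0 := ht
    rcases min_le_iff.1 ht' with h1 | h1
    · exact absurd h1 (by norm_num)
    · exact h1
  obtain ⟨c, hc, hP⟩ := exists_cheap e (f0 q) F h'
  have hb := q.hb
  refine ⟨(q.b + 1) ^ 2 * (2 + (q.b + 1) / c), by positivity, fun x => ?_⟩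
  have hn0 : (0 : ℝ) ≤ n1 x := by exact_mod_cast n1_nonneg x
  obtain ⟨p, hp, hlen⟩ := exists_path_len (0 : V e) x
  -- the dominating function
  set B : Om e → ℝ := fun ω => cost q ω p + p.length with hB
  have hB0 : ∀ ω, 0 ≤ B ω := fun ω => add_nonneg (cost_nonneg q ω p) (Nat.cast_nonneg _)
  have hBi : Integrable B (PM e F) := (mean_cost q F hp).1.add (integrable_const _)
  have hB2 : Integrable (fun ω => B ω ^ 2) (PM e F) := by
    have h1 : (fun ω => B ω ^ 2) = fun ω => (cost q ω p ^ 2 + (2 * p.length) * cost q ω p) +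
        (p.length : ℝ) ^ 2 := by
      funext ω
      simp only [hB]
      ring
    rw [h1]
    exact ((sq_cost q F hp).1.add ((mean_cost q F hp).1.const_mul _)).add (integrable_const _)
  have hTb : ∀ (k : ℕ) (ω : Om e), |Tf (fk q k) ω 0 x| ≤ B ω := by
    intro k ω
    rw [abs_of_nonneg (Tf_nonneg _ ω 0 x)]
    refine ((Tf_le _ ω p).trans (cf_fk_le q k ω p)).trans ?_
    have h1 := one_div_le k
    have h2 : 1 / ((k : ℝ) + 1) * p.length ≤ 1 * p.length :=
      mul_le_mul_of_nonneg_right h1 (Nat.cast_nonneg _)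
    simp only [hB]
    linarith
  -- the limit of the variances
  have l1 : Tendsto (fun k => ∫ ω, Tf (fk q k) ω 0 x ∂(PM e F)) atTop
      (𝓝 (∫ ω, T q ω 0 x ∂(PM e F))) := by
    refine tendsto_integral_of_dominated_convergence B ?_ hBi ?_ ?_
    · exact fun k => (measurable_Tf (fk q k) 0 x).aestronglyMeasurable
    · exact fun k => Eventually.of_forall fun ω => hTb k ω
    · exact Eventually.of_forall fun ω => T_fk q ω 0 x
  have l2 : Tendsto (fun k => ∫ ω, Tf (fk q k) ω 0 x ^ 2 ∂(PM e F)) atTop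
      (𝓝 (∫ ω, T q ω 0 x ^ 2 ∂(PM e F))) := by
    refine tendsto_integral_of_dominated_convergence (fun ω => B ω ^ 2) ?_ hB2 ?_ ?_
    · exact fun k => ((measurable_Tf (fk q k) 0 x).pow_const 2).aestronglyMeasurable
    · intro k
      refine Eventually.of_forall fun ω => ?_
      rw [Real.norm_eq_abs, abs_pow]
      exact pow_le_pow_left₀ (abs_nonneg _) (hTb k ω) 2
    · exact Eventually.of_forall fun ω => (T_fk q ω 0 x).pow 2
  have h1 : ∫ ω, T q ω 0 x ^ 2 ∂(PM e F) - (∫ ω, T q ω 0 x ∂(PM e F)) ^ 2 ≤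
      (q.b + 1) ^ 2 * (2 + (q.b + 1) * n1 x / c) :=
    le_of_tendsto (l2.sub (l1.pow 2)) (Eventually.of_forall fun k =>
      var_dom (dm_fk q k) F hc hP (mean_fk q F k) (sq_fk q F k) x)
  have h2 : ∫ ω, (T q ω 0 x - g q F x) ^ 2 ∂(PM e F) =
      ∫ ω, T q ω 0 x ^ 2 ∂(PM e F) - (∫ ω, T q ω 0 x ∂(PM e F)) ^ 2 := by
    have h3 := variance_eq_integral (μ := PM e F) (measurable_T (e := e) q 0 x).aemeasurable
    have h4 := variance_eq_sub (memLp_T q F (0 : V e) x)
    rw [h4] at h3
    exact h3.symm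
  by_cases hx : x = 0
  · subst hx
    simp only [T_self, g_zero, n1_zero, sub_zero]
    norm_num
  · have hx1 : (1 : ℝ) ≤ n1 x := by
      have h5 : n1 x ≠ 0 := by
        intro h6
        refine hx (eq_of_n1 ?_)
        rwa [sub_zero]
      have h6 := n1_nonneg x
      have h7 : 1 ≤ n1 x := by omega
      exact_mod_cast h7
    rw [h2]
    refine h1.trans ?_
    have e1 : (q.b + 1) * (n1 x : ℝ) / c = (q.b + 1) / c * n1 x := by ring
    rw [e1]
    have h6 : 0 ≤ (q.b + 1) / c := by positivity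
    have h7 : 2 + (q.b + 1) / c * (n1 x : ℝ) ≤ (2 + (q.b + 1) / c) * n1 x := by nlinarith
    calc (q.b + 1) ^ 2 * (2 + (q.b + 1) / c * n1 x)
        ≤ (q.b + 1) ^ 2 * ((2 + (q.b + 1) / c) * n1 x) :=
          mul_le_mul_of_nonneg_left h7 (sq_nonneg _)
      _ = (q.b + 1) ^ 2 * (2 + (q.b + 1) / c) * n1 x := by ring

/-- MODULE LAW -/
theorem law : LawT := fun e q F _ _ h => ⟨varB e q F h, farB e q F h⟩

end Pool.Agent.J6H48.NX
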