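import Pool.Agent.J6H99.NX.Stm

/-!
# First-passage percolation with positive weights: paths with small cost are improbable

Port of `Pool/Agent/J6H42/NC/Cheap.lean` (helper42) to general nonnegative weight functions.
-/

set_option autoImplicit false

open MeasureTheory ProbabilityTheory Filter Topology
open scoped ENNReal

namespace Pool.Agent.J6H48.NX

open Pool.Agent.J6H99.NX

variable {e : ℕ}

/-! ### Weight functions -/

/-- a nonnegative measurable weight function -/
structure Wt where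
  /-- the weight -/
  f : ℝ → ℝ
  m : Measurable f
  nn : ∀ t, 0 ≤ f t

/-- the weight function of the parameters -/
noncomputable def wq (q : Par) : Wt := ⟨q.w, q.measurable_w, q.w_nonneg⟩

/-- the cost of a walk -/
noncomputable def cf (a : Wt) (ω : Om e) {x y : V e} (p : (lat e).Walk x y) : ℝ :=
  (p.edges.map fun s => a.f (ω s)).sum

/-- the passage time -/
noncomputable def Tf (a : Wt) (ω : Om e) (x y : V e) : ℝ := ⨅ p : (lat e).Walk x y, cf a ω p

lemma cf_wq (q : Par) (ω : Om e) {x y : V e} (p : (lat e).Walk x y) : cf (wq q) ω p = cost q ω p :=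
  rfl

lemma Tf_wq (q : Par) (ω : Om e) (x y : V e) : Tf (wq q) ω x y = T q ω x y := rfl

lemma cf_nonneg (a : Wt) (ω : Om e) {x y : V e} (p : (lat e).Walk x y) : 0 ≤ cf a ω p := by
  unfold cf
  apply List.sum_nonneg
  intro t ht
  obtain ⟨s, _, rfl⟩ := List.mem_map.1 ht
  exact a.nn _

lemma cf_mono {a a' : Wt} (h : ∀ t, a.f t ≤ a'.f t) (ω : Om e) {x y : V e}
    (p : (lat e).Walk x y) : cf a ω p ≤ cf a' ω p :=
  List.sum_le_sum fun s _ => h _

lemma measurable_cf (a : Wt) {x y : V e} (p : (lat e).Walk x y) :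
    Measurable (fun ω : Om e => cf a ω p) := by
  unfold cf
  generalize p.edges = L
  induction L with
  | nil => simp only [List.map_nil, List.sum_nil]; exact measurable_const
  | cons s L ih =>
    simp only [List.map_cons, List.sum_cons]
    exact (a.m.comp (measurable_pi_apply s)).add ih

lemma bdd_cf (a : Wt) (ω : Om e) (x y : V e) :
    BddBelow (Set.range fun p : (lat e).Walk x y => cf a ω p) :=
  ⟨0, by rintro _ ⟨p, rfl⟩; exact cf_nonneg a ω p⟩

lemma Tf_le (a : Wt) (ω : Om e) {x y : V e} (p : (lat e).Walk x y) : Tf a ω x y ≤ cf a ω p :=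
  ciInf_le (bdd_cf a ω x y) p

lemma Tf_nonneg (a : Wt) (ω : Om e) (x y : V e) : 0 ≤ Tf a ω x y :=
  le_ciInf fun p => cf_nonneg a ω p

lemma measurable_Tf (a : Wt) (x y : V e) : Measurable fun ω : Om e => Tf a ω x y := by
  unfold Tf
  exact Measurable.iInf fun p => measurable_cf a p

lemma exists_near_cf (a : Wt) (ω : Om e) (x y : V e) {δ : ℝ} (hδ : 0 < δ) :
    ∃ p : (lat e).Walk x y, cf a ω p < Tf a ω x y + δ :=
  exists_lt_of_ciInf_lt (show Tf a ω x y < Tf a ω x y + δ by linarith)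

open Classical in
lemma cf_bypass_le (a : Wt) (ω : Om e) {x y : V e} (p : (lat e).Walk x y) :
    cf a ω p.bypass ≤ cf a ω p := by
  have h1 : p.bypass.edges.Nodup := (SimpleGraph.Walk.bypass_isPath p).isTrail.edges_nodup
  have h2 : List.Subperm p.bypass.edges p.edges :=
    h1.subperm (SimpleGraph.Walk.edges_bypass_subset_edges p)
  obtain ⟨l, hl1, hl2⟩ := h2
  unfold cf
  rw [← (hl1.map (fun s => a.f (ω s))).sum_eq]
  refine (hl2.map _).sum_le_sum ?_
  intro t ht
  obtain ⟨s, -, rfl⟩ := List.mem_map.1 ht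
  exact a.nn _

/-- near optimal paths -/
lemma exists_near_path (a : Wt) (ω : Om e) (x y : V e) {δ : ℝ} (hδ : 0 < δ) :
    ∃ p : (lat e).Walk x y, p.IsPath ∧ cf a ω p < Tf a ω x y + δ := by
  classical
  obtain ⟨p, hp⟩ := exists_near_cf a ω x y hδ
  exact ⟨p.bypass, SimpleGraph.Walk.bypass_isPath p, lt_of_le_of_lt (cf_bypass_le a ω p) hp⟩

/-! ### Exponential moments -/

lemma exp_bd (a : Wt) {t : ℝ} (ht : 0 ≤ t) (x : ℝ) : ‖Real.exp (-t * a.f x)‖ ≤ 1 := by
  rw [Real.norm_eq_abs, abs_of_pos (Real.exp_pos _), Real.exp_le_one_iff]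
  have := mul_nonneg ht (a.nn x)
  linarith

theorem mgf_w (a : Wt) (F : Measure ℝ) [IsProbabilityMeasure F] (s : Sym2 (V e)) (t : ℝ) :
    mgf (fun ω : Om e => a.f (ω s)) (PM e F) t = ∫ x, Real.exp (t * a.f x) ∂F := by
  have h := measurePreserving_eval_infinitePi (fun _ : Sym2 (V e) => F) s
  have hm : Measurable fun x : ℝ => Real.exp (t * a.f x) :=
    Real.measurable_exp.comp (a.m.const_mul t)
  have h1 := integral_map h.measurable.aemeasurable (f := fun x : ℝ => Real.exp (t * a.f x))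
    (by rw [h.map_eq]; exact hm.aestronglyMeasurable)
  rw [h.map_eq] at h1
  exact h1.symm

theorem exists_rate (a : Wt) (F : Measure ℝ) [IsProbabilityMeasure F]
    (h : F {t | a.f t ≤ 0} = 0) {ε : ℝ} (hε : 0 < ε) :
    ∃ n : ℕ, 1 ≤ n ∧ ∫ x, Real.exp (-(n : ℝ) * a.f x) ∂F ≤ ε := by
  have hlim : Tendsto (fun n : ℕ => ∫ x, Real.exp (-(n : ℝ) * a.f x) ∂F) atTop
      (𝓝 (∫ _ : ℝ, (0 : ℝ) ∂F)) := by
    refine tendsto_integral_of_dominated_convergence (fun _ => (1 : ℝ)) ?_ (integrable_const _) ?_ ?_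
    · intro n
      exact (Real.measurable_exp.comp (a.m.const_mul _)).aestronglyMeasurable
    · intro n
      exact Eventually.of_forall fun x => exp_bd a (Nat.cast_nonneg n) x
    · have h0 : ∀ᵐ x ∂F, ¬ a.f x ≤ 0 := by
        rw [ae_iff]
        simpa using h
      filter_upwards [h0] with x hx
      push Not at hx
      have h1 : Tendsto (fun n : ℕ => (n : ℝ) * a.f x) atTop atTop :=
        tendsto_natCast_atTop_atTop.atTop_mul_const hx
      have h2 := Real.tendsto_exp_neg_atTop_nhds_zero.comp h1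
      refine h2.congr fun n => ?_
      simp only [Function.comp_apply]
      congr 1
      ring
  rw [integral_zero] at hlim
  have h1 := (hlim.eventually (gt_mem_nhds hε)).and (eventually_ge_atTop 1)
  obtain ⟨n, hn, hn1⟩ := h1.exists
  exact ⟨n, hn1, hn.le⟩

theorem prob_edges (a : Wt) (F : Measure ℝ) [IsProbabilityMeasure F] (A : Finset (Sym2 (V e)))
    {r : ℝ} (hr : 0 ≤ r) (t : ℝ) :
    (PM e F).real {ω | ∑ s ∈ A, a.f (ω s) ≤ t} ≤
      Real.exp (r * t) * (∫ x, Real.exp (-r * a.f x) ∂F) ^ A.card := by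
  have hm : ∀ s : Sym2 (V e), Measurable fun ω : Om e => a.f (ω s) := fun s =>
    a.m.comp (measurable_pi_apply s)
  have h1 : iIndepFun (fun (s : Sym2 (V e)) (ω : Om e) => a.f (ω s)) (PM e F) :=
    iIndepFun_infinitePi (P := fun _ : Sym2 (V e) => F) (X := fun _ t => a.f t)
      (fun _ => a.m)
  have h2 : mgf (∑ s ∈ A, fun ω : Om e => a.f (ω s)) (PM e F) (-r) =
      ∏ s ∈ A, mgf (fun ω : Om e => a.f (ω s)) (PM e F) (-r) := h1.mgf_sum hm A
  have h3 : (∑ s ∈ A, fun ω : Om e => a.f (ω s)) = fun ω : Om e => ∑ s ∈ A, a.f (ω s) := by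
    funext ω
    rw [Finset.sum_apply]
  rw [h3] at h2
  have hS : Measurable fun ω : Om e => ∑ s ∈ A, a.f (ω s) := Finset.measurable_sum _ fun s _ => hm s
  have h4 := measure_le_le_exp_mul_mgf (μ := PM e F) (X := fun ω : Om e => ∑ s ∈ A, a.f (ω s))
    (t := -r) t (by linarith) (by
      refine Integrable.of_bound (Real.measurable_exp.comp
        (hS.const_mul (-r))).aestronglyMeasurable 1 (Eventually.of_forall fun ω => ?_)
      rw [Real.norm_eq_abs, abs_of_pos (Real.exp_pos _), Real.exp_le_one_iff]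
      have : 0 ≤ ∑ s ∈ A, a.f (ω s) := Finset.sum_nonneg fun s _ => a.nn _
      have := mul_nonneg hr this
      linarith)
  refine h4.trans (le_of_eq ?_)
  rw [h2, neg_neg]
  congr 1
  rw [← Finset.prod_const]
  exact Finset.prod_congr rfl fun s _ => mgf_w a F s (-r)

/-! ### Words -/

/-- the step of a letter -/
def st (a : Fin (e + 2) × Bool) : V e := if a.2 then u a.1 else -u a.1

/-- the edges of a word -/
def edg : V e → List (Fin (e + 2) × Bool) → List (Sym2 (V e))
  | _, [] => []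
  | x, a :: L => s(x, x + st a) :: edg (x + st a) L

theorem exists_word {x y : V e} (p : (lat e).Walk x y) :
    ∃ L : List (Fin (e + 2) × Bool), L.length = p.length ∧ edg x L = p.edges := by
  induction p with
  | nil => exact ⟨[], rfl, rfl⟩
  | @cons x y z h p ih =>
    obtain ⟨L, hL, hE⟩ := ih
    obtain ⟨i, hi | hi⟩ := adj_cases h
    · refine ⟨(i, true) :: L, by simp [hL], ?_⟩
      have : x + st (i, true) = y := by simp [st, hi]
      simp only [edg, this, hE, SimpleGraph.Walk.edges_cons]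
    · refine ⟨(i, false) :: L, by simp [hL], ?_⟩
      have : x + st (i, false) = y := by simp [st, hi]
      simp only [edg, this, hE, SimpleGraph.Walk.edges_cons]

lemma edg_length (x : V e) (L : List (Fin (e + 2) × Bool)) : (edg x L).length = L.length := by
  induction L generalizing x with
  | nil => rfl
  | cons a L ih => simp [edg, ih]

/-! ### Cheap paths -/

/-- some path of length `m` from `0` has cost at most `c m` -/
def CheapP (e : ℕ) (a : Wt) (c : ℝ) (m : ℕ) : Set (Om e) :=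
  {ω | ∃ y : V e, ∃ p : (lat e).Walk 0 y, p.IsPath ∧ p.length = m ∧ cf a ω p ≤ c * m}

theorem exists_cheap (e : ℕ) (a : Wt) (F : Measure ℝ) [IsProbabilityMeasure F]
    (h : F {t | a.f t ≤ 0} = 0) :
    ∃ c : ℝ, 0 < c ∧ ∀ m : ℕ, PM e F (CheapP e a c m) ≤ ENNReal.ofReal ((1 / 2) ^ m) := by
  classical
  have hd : (0 : ℝ) < (e : ℝ) + 2 := by positivity
  obtain ⟨n, hn, hφ⟩ := exists_rate a F h (ε := 1 / (8 * ((e : ℝ) + 2))) (by positivity)
  have hn0 : (0 : ℝ) < n := by exact_mod_cast hn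
  have hlog : 0 < Real.log 2 := Real.log_pos (by norm_num)
  refine ⟨Real.log 2 / n, by positivity, fun m => ?_⟩
  set c : ℝ := Real.log 2 / n with hc
  set ev : List.Vector (Fin (e + 2) × Bool) m → Set (Om e) := fun L =>
    {ω | (edg 0 L.1).Nodup ∧ ((edg 0 L.1).map fun s => a.f (ω s)).sum ≤ c * m} with hev
  have hsub : CheapP e a c m ⊆ ⋃ L, ev L := by
    rintro ω ⟨y, p, hp, hm, hcost⟩
    obtain ⟨L, hL, hE⟩ := exists_word p
    refine Set.mem_iUnion.2 ⟨⟨L, hL.trans hm⟩, ?_, ?_⟩
    · show (edg 0 L).Nodup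
      rw [hE]
      exact hp.isTrail.edges_nodup
    · show ((edg 0 L).map fun s => a.f (ω s)).sum ≤ c * m
      rw [hE]
      exact hcost
  have hone : ∀ L, PM e F (ev L) ≤ ENNReal.ofReal ((1 / (4 * ((e : ℝ) + 2))) ^ m) := by
    intro L
    by_cases hnd : (edg (0 : V e) L.1).Nodup
    · have hcard : (edg (0 : V e) L.1).toFinset.card = m := by
        rw [List.toFinset_card_of_nodup hnd, edg_length]
        exact L.2
      have hset : ev L = {ω | ∑ s ∈ (edg (0 : V e) L.1).toFinset, a.f (ω s) ≤ c * m} := by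
        ext ω
        show ((edg 0 L.1).Nodup ∧ ((edg 0 L.1).map fun s => a.f (ω s)).sum ≤ c * m) ↔ _
        rw [Set.mem_ofPred_eq, List.sum_toFinset _ hnd]
        exact ⟨fun h => h.2, fun h => ⟨hnd, h⟩⟩
      rw [hset, ← ofReal_measureReal]
      refine ENNReal.ofReal_le_ofReal ?_
      refine (prob_edges a F _ hn0.le (c * m)).trans ?_
      rw [hcard]
      have e1 : Real.exp ((n : ℝ) * (c * m)) = 2 ^ m := by
        have : (n : ℝ) * (c * m) = m * Real.log 2 := by rw [hc]; field_simp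
        rw [this, Real.exp_nat_mul, Real.exp_log (by norm_num)]
      rw [e1]
      have h0 : 0 ≤ ∫ x, Real.exp (-(n : ℝ) * a.f x) ∂F :=
        integral_nonneg fun x => (Real.exp_pos _).le
      calc (2 : ℝ) ^ m * (∫ x, Real.exp (-(n : ℝ) * a.f x) ∂F) ^ m
          ≤ 2 ^ m * (1 / (8 * ((e : ℝ) + 2))) ^ m := by
            gcongr
        _ = (1 / (4 * ((e : ℝ) + 2))) ^ m := by
            rw [← mul_pow]
            congr 1
            field_simp
            norm_num
    · have : ev L = ∅ := by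
        ext ω
        simp [hev, hnd]
      rw [this, measure_empty]
      exact bot_le
  calc PM e F (CheapP e a c m) ≤ PM e F (⋃ L, ev L) := measure_mono hsub
    _ ≤ ∑ L, PM e F (ev L) := measure_iUnion_fintype_le _ _
    _ ≤ ∑ _L : List.Vector (Fin (e + 2) × Bool) m,
        ENNReal.ofReal ((1 / (4 * ((e : ℝ) + 2))) ^ m) := Finset.sum_le_sum fun L _ => hone L
    _ = ENNReal.ofReal ((1 / 2) ^ m) := by
        rw [Finset.sum_const, Finset.card_univ, card_vector, nsmul_eq_mul, Fintype.card_prod,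
          Fintype.card_fin, Fintype.card_bool]
        rw [← ENNReal.ofReal_natCast, ← ENNReal.ofReal_mul (Nat.cast_nonneg _)]
        congr 1
        push_cast
        rw [← mul_pow]
        congr 1
        field_simp
        norm_num

lemma n1_le_len {y : V e} (p : (lat e).Walk 0 y) : n1 y ≤ p.length := by
  have := n1_le_length p
  rwa [sub_zero] at this

/-- the bound for far points -/
theorem farB (e : ℕ) (q : Par) (F : Measure ℝ) [IsProbabilityMeasure F]
    (h : F {t | q.w t ≤ 0} = 0) : FarB e q F := by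
  classical
  obtain ⟨c, hc, hP⟩ := exists_cheap e (wq q) F h
  refine ⟨c, hc, fun p => ?_⟩
  -- the constant
  have hlim : Tendsto (fun n : ℕ => ((n : ℝ)) ^ p * (1 / 2 : ℝ) ^ n) atTop (𝓝 0) :=
    tendsto_pow_const_mul_const_pow_of_abs_lt_one p (by rw [abs_of_pos] <;> norm_num)
  obtain ⟨M, hM⟩ := hlim.bddAbove_range
  have hM' : ∀ n : ℕ, ((n : ℝ)) ^ p * (1 / 2 : ℝ) ^ n ≤ M := fun n => hM ⟨n, rfl⟩
  have hM0 : 0 ≤ M := le_trans (by positivity) (hM' 0)
  refine ⟨4 * M, by positivity, fun n => ?_⟩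
  have hsub : {ω : Om e | ∃ y : V e, (n : ℤ) ≤ n1 y ∧ T q ω 0 y < c * n1 y} ⊆
      ⋃ k : ℕ, CheapP e (wq q) c (n + k) := by
    rintro ω ⟨y, hy, hT⟩
    obtain ⟨w, hw⟩ := exists_lt_of_ciInf_lt (show (⨅ w : (lat e).Walk 0 y, cf (wq q) ω w) < c * n1 y from hT)
    have h1 := cf_bypass_le (wq q) ω w
    have h2 := n1_le_len w.bypass
    have h3 : (n : ℤ) ≤ w.bypass.length := hy.trans h2
    have h4 : n ≤ w.bypass.length := by exact_mod_cast h3
    obtain ⟨k, hk⟩ := Nat.exists_eq_add_of_le h4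
    refine Set.mem_iUnion.2 ⟨k, y, w.bypass, SimpleGraph.Walk.bypass_isPath w, hk, ?_⟩
    rw [← hk]
    refine h1.trans (hw.le.trans ?_)
    refine mul_le_mul_of_nonneg_left ?_ hc.le
    exact_mod_cast h2
  have hgeo : ∑' k : ℕ, ENNReal.ofReal ((1 / 2 : ℝ) ^ (n + k)) = ENNReal.ofReal (2 * (1 / 2) ^ n) := by
    have hs : Summable fun k : ℕ => (1 / 2 : ℝ) ^ (n + k) := by
      simp_rw [pow_add]
      exact (summable_geometric_of_lt_one (by norm_num) (by norm_num)).mul_left _
    rw [← ENNReal.ofReal_tsum_of_nonneg (fun k => by positivity) hs]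
    congr 1
    simp_rw [pow_add]
    rw [tsum_mul_left, tsum_geometric_of_lt_one (by norm_num) (by norm_num)]
    norm_num
    ring
  calc PM e F {ω : Om e | ∃ y : V e, (n : ℤ) ≤ n1 y ∧ T q ω 0 y < c * n1 y}
      ≤ PM e F (⋃ k : ℕ, CheapP e (wq q) c (n + k)) := measure_mono hsub
    _ ≤ ∑' k : ℕ, PM e F (CheapP e (wq q) c (n + k)) := measure_iUnion_le _
    _ ≤ ∑' k : ℕ, ENNReal.ofReal ((1 / 2 : ℝ) ^ (n + k)) := ENNReal.tsum_le_tsum fun k => hP _
    _ = ENNReal.ofReal (2 * (1 / 2) ^ n) := hgeo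
    _ ≤ ENNReal.ofReal (4 * M / ((n : ℝ) + 1) ^ p) := by
      refine ENNReal.ofReal_le_ofReal ?_
      rw [le_div_iff₀ (by positivity)]
      have := hM' (n + 1)
      push_cast at this
      rw [pow_succ] at this
      nlinarith

end Pool.Agent.J6H48.NX
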